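import Pool.Agent.H9.FC.TB

/-! Boundedness by compactness. -/

namespace Pool.Agent.H29.FC.CLA

open Set Pool.Agent.H9.FC

theorem w_mono (p : Par) (i : ℕ) {l l' : ℕ} (h : l ≤ l') : p.w l i ≤ p.w l' i := by
  induction h with
  | refl => exact le_rfl
  | step _ ih => exact ih.trans (le_trans (by omega) (p.w_succ _ i))

theorem isName_union {Ω : Type} [LinearOrder Ω] (p : Par) (Q : Set (Set (Pt Ω))) (γ : Ω)
    (l l' : ℕ) (φ ψ : Pt Ω → ℕ → Finset ℕ) (h : IsName p Q γ l φ) (h' : IsName p Q γ l' ψ) :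
    IsName p Q γ (max l l' + 1) (fun x i => φ x i ∪ ψ x i) := by
  obtain ⟨h1, h2, h3⟩ := h
  obtain ⟨g1, g2, g3⟩ := h'
  refine ⟨fun x i => ⟨Finset.union_subset (h1 x i).1 (g1 x i).1, ?_⟩, ?_, ?_⟩
  · have a1 := (h1 x i).2
    have a2 := (g1 x i).2
    have a3 := w_mono p i (le_max_left l l')
    have a4 := w_mono p i (le_max_right l l')
    have a5 := p.w_succ (max l l') i
    have a6 := Finset.card_union_le (φ x i) (ψ x i)
    show (φ x i ∪ ψ x i).card ≤ _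
    omega
  · intro x x' hx
    funext i
    show φ x i ∪ ψ x i = φ x' i ∪ ψ x' i
    rw [h2 x x' hx, g2 x x' hx]
  · intro i U hU
    obtain ⟨V, hV, hVU, c, hc⟩ := h3 i U hU
    obtain ⟨V', hV', hVV, c', hc'⟩ := g3 i V hV
    refine ⟨V', hV', hVV.trans hVU, c ∪ c', fun x hx => ?_⟩
    show φ x i ∪ ψ x i = c ∪ c'
    have b1 : φ x i = c := hc x (hVV hx)
    have b2 : ψ x i = c' := hc' x hx
    rw [b1, b2]

/-- legal lists -/
def Legal (p : Par) (l : ℕ) (F : List (Finset ℕ)) : Prop :=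
  ∀ j < F.length, F.getD j ∅ ⊆ Finset.range (p.a j) ∧ (F.getD j ∅).card ≤ p.w (l + 1) j

/-- bad triples -/
def Bad3 {Ω : Type} [LinearOrder Ω] [WellFoundedLT Ω] (p : Par) (β γ : Ω)
    (y : Pt Ω → ℕ → BVal) (s : List (Finset ℕ)) (l n G : ℕ) (V : Set (Pt Ω))
    (φ : Pt Ω → ℕ → Finset ℕ) : Prop :=
  IsName p (PP p γ) γ (l + 1) φ ∧ ∀ R ∈ PP p β, R ⊆ V ∩ atom γ s φ → ∀ c : BVal,
    (∀ t ∈ R, y t n = c) → ¬ (c.1 + c.2.1 ≤ n + G)

theorem Bad3.mono {Ω : Type} [LinearOrder Ω] [WellFoundedLT Ω] {p : Par} {β γ : Ω}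
    {y : Pt Ω → ℕ → BVal} {s : List (Finset ℕ)} {l n G G' : ℕ} {V V' : Set (Pt Ω)}
    {φ : Pt Ω → ℕ → Finset ℕ} (h : Bad3 p β γ y s l n G V φ) (hG : G' ≤ G) (hV : V' ⊆ V) :
    Bad3 p β γ y s l n G' V' φ := by
  refine ⟨h.1, fun R hR hRV c hc hle => h.2 R hR ?_ c hc (by omega)⟩
  exact hRV.trans (inter_subset_inter_left _ hV)

/-- the property of initial segments -/
def Phi {Ω : Type} [LinearOrder Ω] [WellFoundedLT Ω] (p : Par) (β γ : Ω)
    (y : Pt Ω → ℕ → BVal) (s : List (Finset ℕ)) (l n : ℕ) (F : List (Finset ℕ))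
    (V' : Set (Pt Ω)) : Prop :=
  Legal p l F ∧ ∀ V'' ∈ PP p γ, V'' ⊆ V' → ∀ G, ∃ V3 ∈ PP p γ, V3 ⊆ V'' ∧
    ∃ φ, Bad3 p β γ y s l n G V3 φ ∧ ∀ j < F.length, ∀ x ∈ V3, φ x j = F.getD j ∅

theorem legal_append (p : Par) (l : ℕ) (F : List (Finset ℕ)) (c : Finset ℕ) (h : Legal p l F)
    (hc : c ⊆ Finset.range (p.a F.length) ∧ c.card ≤ p.w (l + 1) F.length) :
    Legal p l (F ++ [c]) := by
  intro j hj
  rw [List.length_append] at hj
  change j < F.length + 1 at hj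
  rcases Nat.lt_succ_iff_lt_or_eq.1 hj with hj | rfl
  · rw [List.getD_append _ _ _ _ hj]
    exact h j hj
  · rw [List.getD_append_right _ _ _ _ le_rfl, Nat.sub_self]
    exact hc

theorem ext_step {Ω : Type} [LinearOrder Ω] [WellFoundedLT Ω] (p : Par) (β γ : Ω)
    (y : Pt Ω → ℕ → BVal) (s : List (Finset ℕ)) (l n : ℕ)
    (hne : ∀ U : Set (Pt Ω), U ∈ PP p γ → U.Nonempty) (F : List (Finset ℕ)) (V1 : Set (Pt Ω))
    (hV1 : V1 ∈ PP p γ) (hΦ : Phi p β γ y s l n F V1) :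
    ∃ V' ∈ PP p γ, V' ⊆ V1 ∧ ∃ c, Phi p β γ y s l n (F ++ [c]) V' := by
  by_contra hcon
  push Not at hcon
  obtain ⟨hleg, hΦ⟩ := hΦ
  -- finite induction over legal values
  have hind : ∀ L : Finset (Finset ℕ), (∀ c ∈ L, c ⊆ Finset.range (p.a F.length) ∧
      c.card ≤ p.w (l + 1) F.length) → ∃ V2 ∈ PP p γ, V2 ⊆ V1 ∧ ∃ G, ∀ c ∈ L, ∀ V3 ∈ PP p γ,
      V3 ⊆ V2 → ∀ φ, Bad3 p β γ y s l n G V3 φ →
      ¬ ∀ j < (F ++ [c]).length, ∀ x ∈ V3, φ x j = (F ++ [c]).getD j ∅ := by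
    intro L
    induction L using Finset.induction_on with
    | empty => exact fun _ => ⟨V1, hV1, Subset.rfl, 0, fun c hc => absurd hc (Finset.notMem_empty c)⟩
    | insert c L _ ih =>
      intro hL
      obtain ⟨V2, hV2, hV21, G, hG⟩ := ih (fun c' hc' => hL c' (Finset.mem_insert_of_mem hc'))
      have h1 := hcon V2 hV2 hV21 c
      have h2 : ¬ ∀ V'' ∈ PP p γ, V'' ⊆ V2 → ∀ G, ∃ V3 ∈ PP p γ, V3 ⊆ V'' ∧
          ∃ φ, Bad3 p β γ y s l n G V3 φ ∧ ∀ j < (F ++ [c]).length, ∀ x ∈ V3,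
          φ x j = (F ++ [c]).getD j ∅ := fun h =>
        h1 ⟨legal_append p l F c hleg (hL c (Finset.mem_insert_self c L)), h⟩
      push Not at h2
      obtain ⟨V'', hV'', hVV, G1, h3⟩ := h2
      refine ⟨V'', hV'', hVV.trans hV21, max G G1, fun c' hc' V3 hV3 hV3V φ hbad hall => ?_⟩
      rcases Finset.mem_insert.1 hc' with rfl | hc'
      · obtain ⟨j, hj, x, hx, hxj⟩ := h3 V3 hV3 hV3V φ (hbad.mono (le_max_right _ _) Subset.rfl)
        exact hxj (hall j hj x hx)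
      · exact hG c' hc' V3 hV3 (hV3V.trans hVV) φ (hbad.mono (le_max_left _ _) Subset.rfl) hall
  obtain ⟨V2, hV2, hV21, G, hG⟩ := hind ((Finset.range (p.a F.length)).powerset.filter
    (fun c => c.card ≤ p.w (l + 1) F.length)) (by
      intro c hc
      rw [Finset.mem_filter, Finset.mem_powerset] at hc
      exact hc)
  obtain ⟨V3, hV3, hV32, φ, hbad, hφ⟩ := hΦ V2 hV2 hV21 G
  obtain ⟨V4, hV4, hV43, c, hc⟩ := hbad.1.2.2 F.length V3 hV3
  obtain ⟨x, hx⟩ := hne V4 hV4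
  have hcl := hbad.1.1 x F.length
  have hcx : φ x F.length = c := hc x hx
  rw [hcx] at hcl
  refine hG c (by rw [Finset.mem_filter, Finset.mem_powerset]; exact hcl) V4 hV4
    (hV43.trans hV32) φ (hbad.mono le_rfl hV43) ?_
  intro j hj x' hx'
  rw [List.length_append] at hj
  change j < F.length + 1 at hj
  rcases Nat.lt_succ_iff_lt_or_eq.1 hj with hj | rfl
  · rw [List.getD_append _ _ _ _ hj]
    exact hφ j hj x' (hV43 hx')
  · rw [List.getD_append_right _ _ _ _ le_rfl, Nat.sub_self]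
    exact hc x' hx'

theorem pf_CLA (hBAS : T_BAS) (hDCF : T_DCF) (hEXT : T_EXT) (hNAM : T_NAM) : T_CLA := by
  intro p Ω _ _ β γ m y s l n hγβ hy hs hl V hV
  obtain ⟨_, hdep, _, hne, _⟩ := hBAS p Ω
  by_contra hcon
  push Not at hcon
  have hneg : ∀ V' ∈ PP p γ, V' ⊆ V → ∀ G, ∃ V3 ∈ PP p γ, V3 ⊆ V' ∧ ∃ φ,
      Bad3 p β γ y s l n G V3 φ := by
    intro V' hV' hVV G
    have h1 := hcon V' hV' hVV G
    unfold KK at h1
    push Not at h1
    obtain ⟨V3, hV3, hV33, φ, hφ, h2⟩ := h1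
    exact ⟨V3, hV3, hV33, φ, hφ, fun R hR hRV c hc hle => absurd hle (not_le.2 (h2 R hR hRV c hc))⟩
  obtain ⟨f, hf1, hf2, hf3, hf4⟩ := hNAM p Ω γ (Finset ℕ) ∅ (Phi p β γ y s l n) V hV
    (by
      refine ⟨fun j hj => absurd hj (Nat.not_lt_zero _), fun V'' hV'' hVV G => ?_⟩
      obtain ⟨V3, hV3, hV33, φ, hφ⟩ := hneg V'' hV'' hVV G
      exact ⟨V3, hV3, hV33, φ, hφ, fun j hj => absurd hj (Nat.not_lt_zero _)⟩)
    (by
      intro F V1 V2 _ hVV h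
      exact ⟨h.1, fun V'' hV'' hV2 G => h.2 V'' hV'' (hV2.trans hVV) G⟩)
    (by
      intro F V1 hV1 _ h
      exact ext_step p β γ y s l n (hne γ) F V1 hV1 h)
  -- the name
  have hname : IsName p (PP p γ) γ (l + 1) f := by
    refine ⟨fun x i => ?_, hf1, hf2⟩
    rcases hf3 x i with h | ⟨F, V1, hF, _, hΦ⟩
    · rw [h]
      exact ⟨Finset.empty_subset _, by simp⟩
    · have h1 := hΦ.1 i (by rw [List.length_append, hF]; exact Nat.lt_succ_self i)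
      rw [List.getD_append_right _ _ _ _ (by rw [hF]), hF, Nat.sub_self] at h1
      exact h1
  have hVa : V ∩ atom γ s f ∈ PP p β :=
    (mem_PP p β _).2 (Or.inr ⟨γ, hγβ, V, hV, s, l + 1, f, hs, by omega, hname, rfl⟩)
  obtain ⟨R0, hR0, hR0V, c, hc⟩ := hy.2.2 n _ hVa
  obtain ⟨V1, hV1, s1, l1, φ1, hs1, hl1, hN, hφ1, hV1s, hext⟩ :=
    hEXT p Ω γ β (max s.length (l + 4)) R0 hγβ hR0
  have hV1V : V1 ⊆ V := by
    intro x hx
    obtain ⟨x', hx', hxx⟩ := hV1s hx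
    exact hdep γ V hV x' x (hR0V hx').1 (fun δ hδ => (hxx δ hδ).symm)
  obtain ⟨V2, hV2, hV21, hV2c⟩ := hDCF p Ω γ (Finset ℕ) f s1.length V1 hf2 hV1
  obtain ⟨x2, hx2⟩ := hne γ V2 hV2
  have hfx : ∀ x ∈ V2, ∀ i < s1.length, f x i = f x2 i := by
    intro x hx i hi
    obtain ⟨c', hc'⟩ := hV2c i hi
    rw [hc' x hx, hc' x2 hx2]
  obtain ⟨V2', hV2', hV2'2, hΦ⟩ := hf4 ((List.range s1.length).map (f x2)) V2 hV2
    (hV21.trans hV1V) (by
      intro x hx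
      rw [List.length_map, List.length_range]
      apply List.map_congr_left
      intro i hi
      exact hfx x hx i (List.mem_range.1 hi))
  obtain ⟨V3, hV3, hV32, φ, hbad, hφ⟩ := hΦ.2 V2' hV2' Subset.rfl (c.1 + c.2.1)
  rw [List.length_map, List.length_range] at hφ
  have hφf : ∀ j < s1.length, ∀ x ∈ V3, φ x j = f x j := by
    intro j hj x hx
    rw [hφ j hj x hx, hfx x (hV2'2 (hV32 hx)) j hj,
      List.getD_eq_getElem _ _ (by simpa using hj)]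
    simp
  have hφ2 := isName_union p (PP p γ) γ l1 (l + 1) φ1 φ hφ1 hbad.1
  have hR1 := hext V3 hV3 s1 (max l1 (l + 1) + 1) (fun x i => φ1 x i ∪ φ x i) hs1
    (by
      have h1 := le_trans (le_max_right s.length (l + 4)) hN
      rcases le_total l1 (l + 1) with h | h
      · rw [max_eq_right h]; omega
      · rw [max_eq_left h]; omega) hφ2
    (by
      rintro x ⟨hx1, hx2, hx3⟩
      exact ⟨hV21 (hV2'2 (hV32 hx1)), hx2, fun i hi =>
        Finset.Subset.trans Finset.subset_union_left (hx3 i hi)⟩)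
  refine hbad.2 _ hR1 ?_ c (fun t ht => hc t ht.2) (by omega)
  rintro x ⟨⟨hx1, hx2, hx3⟩, hx4⟩
  obtain ⟨_, hx5, hx6⟩ := hR0V hx4
  refine ⟨hx1, hx5, fun i hi => ?_⟩
  by_cases h : i < s1.length
  · rw [hφf i h x hx1]
    exact hx6 i hi
  · exact Finset.Subset.trans Finset.subset_union_right (hx3 i (not_lt.1 h))

end Pool.Agent.H29.FC.CLA
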