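import Pool.Agent.H9.FC.TB

/-! Construction of names by dense choices. -/

namespace Pool.Agent.H29.FC.NAM

open Set Pool.Agent.H9.FC

variable {Ω : Type}

/-- properties of a stage of the construction -/
structure Stage {Y : Type} (P : Set (Set (Pt Ω))) (V₀ : Set (Pt Ω))
    (Φ : List Y → Set (Pt Ω) → Prop) (i : ℕ) (A : Set (Set (Pt Ω) × List Y)) : Prop where
  mem : ∀ q ∈ A, q.1 ∈ P ∧ q.1 ⊆ V₀ ∧ q.2.length = i ∧ Φ q.2 q.1
  inc : ∀ q ∈ A, ∀ q' ∈ A, q ≠ q' → ¬ Comp P q.1 q'.1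
  pre : ∀ U ∈ P, U ⊆ V₀ → ∃ q ∈ A, Comp P U q.1

/-- `B` refines `A` -/
def Child {Y : Type} (A B : Set (Set (Pt Ω) × List Y)) : Prop :=
  ∀ q' ∈ B, ∃ q ∈ A, q'.1 ⊆ q.1 ∧ ∃ c, q'.2 = q.2 ++ [c]

theorem next {Y : Type} (P : Set (Set (Pt Ω))) (V₀ : Set (Pt Ω))
    (Φ : List Y → Set (Pt Ω) → Prop)
    (hh : ∀ F V V', V' ∈ P → V' ⊆ V → Φ F V → Φ F V')
    (he : ∀ F V, V ∈ P → V ⊆ V₀ → Φ F V → ∃ V' ∈ P, V' ⊆ V ∧ ∃ c, Φ (F ++ [c]) V')
    (i : ℕ) (A : Set (Set (Pt Ω) × List Y)) (hA : Stage P V₀ Φ i A) :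
    ∃ B, Stage P V₀ Φ (i + 1) B ∧ Child A B := by
  let D : Set (Set (Pt Ω) × List Y) :=
    {q' | ∃ q ∈ A, q'.1 ∈ P ∧ q'.1 ⊆ q.1 ∧ ∃ c, q'.2 = q.2 ++ [c] ∧ Φ q'.2 q'.1}
  let S : Set (Set (Set (Pt Ω) × List Y)) :=
    {B | B ⊆ D ∧ ∀ q ∈ B, ∀ q' ∈ B, q ≠ q' → ¬ Comp P q.1 q'.1}
  obtain ⟨B, hB⟩ := zorn_subset S (by
    intro c hc hchain
    refine ⟨⋃₀ c, ⟨?_, ?_⟩, fun s hs => subset_sUnion_of_mem hs⟩
    · intro q hq
      obtain ⟨s, hs, hqs⟩ := hq
      exact (hc hs).1 hqs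
    · rintro q ⟨s, hs, hqs⟩ q' ⟨s', hs', hqs'⟩ hne
      rcases hchain.total hs hs' with h | h
      · exact (hc hs').2 q (h hqs) q' hqs' hne
      · exact (hc hs).2 q hqs q' (h hqs') hne)
  have hBD : B ⊆ D := hB.prop.1
  have hBi : ∀ q ∈ B, ∀ q' ∈ B, q ≠ q' → ¬ Comp P q.1 q'.1 := hB.prop.2
  refine ⟨B, ⟨?_, hBi, ?_⟩, ?_⟩
  · intro q' hq'
    obtain ⟨q, hq, h1, h2, c, h3, h4⟩ := hBD hq'
    obtain ⟨_, g2, g3, _⟩ := hA.mem q hq
    refine ⟨h1, h2.trans g2, ?_, h4⟩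
    rw [h3, List.length_append, g3]
    rfl
  · intro U hU hUV
    obtain ⟨q, hq, R, hR, hRU, hRq⟩ := hA.pre U hU hUV
    obtain ⟨g1, g2, g3, g4⟩ := hA.mem q hq
    have hΦR : Φ q.2 R := hh _ _ _ hR hRq g4
    obtain ⟨V', hV', hV'R, c, hc⟩ := he q.2 R hR (hRq.trans g2) hΦR
    -- the new element
    by_cases hm : ∃ q' ∈ B, Comp P V' q'.1
    · obtain ⟨q', hq', R', hR', h1, h2⟩ := hm
      exact ⟨q', hq', R', hR', (h1.trans hV'R).trans hRU, h2⟩
    · exfalso
      push Not at hm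
      have hnew : insert (V', q.2 ++ [c]) B ∈ S := by
        refine ⟨?_, ?_⟩
        · intro q' hq'
          rcases hq' with rfl | hq'
          · exact ⟨q, hq, hV', hV'R.trans hRq, c, rfl, hc⟩
          · exact hBD hq'
        · intro a ha b hb hne
          rcases ha with rfl | ha
          · rcases hb with rfl | hb
            · exact absurd rfl hne
            · exact hm b hb
          · rcases hb with rfl | hb
            · rintro ⟨R', hR', h1, h2⟩
              exact hm a ha ⟨R', hR', h2, h1⟩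
            · exact hBi a ha b hb hne
      have hin : (V', q.2 ++ [c]) ∈ B := hB.le_of_ge hnew (subset_insert _ _) (mem_insert _ _)
      exact hm _ hin ⟨V', hV', Subset.rfl, Subset.rfl⟩
  · intro q' hq'
    obtain ⟨q, hq, h1, h2, c, h3, h4⟩ := hBD hq'
    exact ⟨q, hq, h2, c, h3⟩

theorem pf_NAM (hBAS : T_BAS) (hDIC : T_DIC) (hCCC : T_CCC) : T_NAM := by
  intro p Ω _ _ γ Y y₀ Φ V₀ hV₀ hΦ₀ hh he
  obtain ⟨_, hdep, _, hne, _⟩ := hBAS p Ω
  have hdep := hdep γ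
  have hne := hne γ
  have hdic := hDIC p Ω γ
  have hccc := hCCC p Ω γ
  set P := PP p γ with hP
  -- the stages
  have h0 : Stage P V₀ Φ 0 {(V₀, [])} := by
    refine ⟨?_, ?_, ?_⟩
    · rintro q rfl
      exact ⟨hV₀, Subset.rfl, rfl, hΦ₀⟩
    · rintro q rfl q' rfl h
      exact absurd rfl h
    · intro U hU hUV
      exact ⟨_, rfl, U, hU, Subset.rfl, hUV⟩
  let St : (i : ℕ) → {A : Set (Set (Pt Ω) × List Y) // Stage P V₀ Φ i A} := fun i =>
    Nat.rec ⟨{(V₀, [])}, h0⟩ (fun i A =>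
      ⟨Classical.choose (next P V₀ Φ hh he i A.1 A.2),
        (Classical.choose_spec (next P V₀ Φ hh he i A.1 A.2)).1⟩) i
  have hSt : ∀ i, Child (St i).1 (St (i + 1)).1 := fun i =>
    (Classical.choose_spec (next P V₀ Φ hh he i (St i).1 (St i).2)).2
  -- enumeration
  have hen : ∀ i, ∃ e : ℕ → Set (Pt Ω) × List Y, (St i).1 = range e := by
    intro i
    have hc : ((St i).1).Countable := by
      have h1 : (Prod.fst '' (St i).1).Countable := by
        apply hccc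
        · rintro U ⟨q, hq, rfl⟩
          exact ((St i).2.mem q hq).1
        · rintro U ⟨q, hq, rfl⟩ V ⟨q', hq', rfl⟩ hne'
          exact (St i).2.inc q hq q' hq' (fun h => hne' (by rw [h]))
      refine Set.countable_of_injective_of_countable_image ?_ h1
      intro q hq q' hq' h
      by_contra hcon
      refine (St i).2.inc q hq q' hq' hcon ⟨q.1, ((St i).2.mem q hq).1, Subset.rfl, ?_⟩
      rw [h]
    have hn : ((St i).1).Nonempty := by
      obtain ⟨q, hq, _⟩ := (St i).2.pre V₀ hV₀ Subset.rfl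
      exact ⟨q, hq⟩
    exact hc.exists_eq_range hn
  choose e he' using hen
  have hmem : ∀ i j, e i j ∈ (St i).1 := by
    intro i j
    rw [he' i]
    exact ⟨j, rfl⟩
  have hEP : ∀ i j, (e i j).1 ∈ P := fun i j => ((St i).2.mem _ (hmem i j)).1
  have hEV : ∀ i j, (e i j).1 ⊆ V₀ := fun i j => ((St i).2.mem _ (hmem i j)).2.1
  have hEl : ∀ i j, (e i j).2.length = i := fun i j => ((St i).2.mem _ (hmem i j)).2.2.1
  have hEΦ : ∀ i j, Φ (e i j).2 (e i j).1 := fun i j => ((St i).2.mem _ (hmem i j)).2.2.2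
  have hpar : ∀ i j, ∃ j', (e (i + 1) j).1 ⊆ (e i j').1 ∧ ∃ c, (e (i + 1) j).2 = (e i j').2 ++ [c] := by
    intro i j
    obtain ⟨q, hq, h1, h2⟩ := hSt i _ (hmem (i + 1) j)
    rw [he' i] at hq
    obtain ⟨j', rfl⟩ := hq
    exact ⟨j', h1, h2⟩
  -- the name
  classical
  let g : (ℕ → Prop) → ℕ → Y := fun Q i =>
    if h : ∃ j, Q j then (e (i + 1) (Nat.find h)).2.getD i y₀ else y₀
  let f : Pt Ω → ℕ → Y := fun x i => g (fun j => x ∈ (e (i + 1) j).1) i
  have hf1 : ∀ x i, (h : ∃ j, x ∈ (e (i + 1) j).1) → ∃ j', x ∈ (e (i + 1) j').1 ∧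
      (∀ j'' < j', x ∉ (e (i + 1) j'').1) ∧ f x i = (e (i + 1) j').2.getD i y₀ := by
    intro x i h
    refine ⟨Nat.find h, Nat.find_spec h, fun j'' h' => Nat.find_min h h', ?_⟩
    show g (fun j => x ∈ (e (i + 1) j).1) i = _
    simp only [g]
    rw [dif_pos h]
  have hf0 : ∀ x i, (¬ ∃ j, x ∈ (e (i + 1) j).1) → f x i = y₀ := by
    intro x i h
    show g (fun j => x ∈ (e (i + 1) j).1) i = _
    simp only [g]
    rw [dif_neg h]
  -- KEY
  have shrink : ∀ i j k, ∀ V ∈ P, V ⊆ (e i j).1 → ∃ V' ∈ P, V' ⊆ V ∧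
      ∀ j'' < k, e i j'' = e i j ∨ Disjoint V' (e i j'').1 := by
    intro i j k
    induction k with
    | zero => exact fun V hV _ => ⟨V, hV, Subset.rfl, fun j'' h => absurd h (Nat.not_lt_zero _)⟩
    | succ k ih =>
      intro V hV hVj
      obtain ⟨V1, hV1, hV1V, h1⟩ := ih V hV hVj
      by_cases hk : e i k = e i j
      · refine ⟨V1, hV1, hV1V, fun j'' h => ?_⟩
        rcases Nat.lt_succ_iff_lt_or_eq.1 h with h | rfl
        · exact h1 j'' h
        · exact Or.inl hk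
      · obtain ⟨V2, hV2, hV2V, h2⟩ := hdic V1 (e i k).1 hV1 (hEP i k)
        refine ⟨V2, hV2, hV2V.trans hV1V, fun j'' h => ?_⟩
        rcases Nat.lt_succ_iff_lt_or_eq.1 h with h | rfl
        · rcases h1 j'' h with h3 | h3
          · exact Or.inl h3
          · exact Or.inr (h3.mono_left hV2V)
        · right
          rcases h2 with h2 | h2
          · exfalso
            exact (St i).2.inc _ (hmem i j'') _ (hmem i j) hk
              ⟨V2, hV2, h2, (hV2V.trans hV1V).trans hVj⟩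
          · exact h2
  have key : ∀ i j, ∀ V ∈ P, V ⊆ (e i j).1 → ∃ V' ∈ P, V' ⊆ V ∧
      ∀ i' < i, ∀ x ∈ V', f x i' = (e i j).2.getD i' y₀ := by
    intro i
    induction i with
    | zero => exact fun j V hV _ => ⟨V, hV, Subset.rfl, fun i' h => absurd h (Nat.not_lt_zero _)⟩
    | succ i ih =>
      intro j V hV hVj
      obtain ⟨j', h1, c, h2⟩ := hpar i j
      obtain ⟨V1, hV1, hV1V, h3⟩ := ih j' V hV (hVj.trans h1)
      obtain ⟨V2, hV2, hV2V, h4⟩ := shrink (i + 1) j j V1 hV1 (hV1V.trans hVj)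
      refine ⟨V2, hV2, hV2V.trans hV1V, fun i' hi' x hx => ?_⟩
      rcases Nat.lt_succ_iff_lt_or_eq.1 hi' with hi' | rfl
      · rw [h3 i' hi' x (hV2V hx), h2, List.getD_append _ _ _ _ (by rw [hEl]; exact hi')]
      · have hxj : x ∈ (e (i' + 1) j).1 := hVj (hV1V (hV2V hx))
        obtain ⟨j3, h5, h6, h7⟩ := hf1 x i' ⟨j, hxj⟩
        rw [h7]
        have hle : j3 ≤ j := by
          by_contra hcon
          exact h6 j (not_le.1 hcon) hxj
        rcases hle.lt_or_eq with hlt | rfl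
        · rcases h4 j3 hlt with h8 | h8
          · rw [h8]
          · exact absurd h5 (fun h5 => Set.disjoint_left.1 h8 hx h5)
        · rfl
  refine ⟨f, ?_, ?_, ?_, ?_⟩
  · intro x x' hxx
    funext i
    show g (fun j => x ∈ (e (i + 1) j).1) i = g (fun j => x' ∈ (e (i + 1) j).1) i
    congr 1
    funext j
    apply propext
    constructor
    · intro h
      exact hdep _ (hEP (i + 1) j) x x' h hxx
    · intro h
      exact hdep _ (hEP (i + 1) j) x' x h (fun δ hδ => (hxx δ hδ).symm)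
  · intro i U hU
    by_cases hc : Comp P U V₀
    · obtain ⟨V, hV, hVU, hVV⟩ := hc
      obtain ⟨q, hq, R, hR, hRV, hRq⟩ := (St (i + 1)).2.pre V hV hVV
      rw [he' (i + 1)] at hq
      obtain ⟨j, rfl⟩ := hq
      obtain ⟨V', hV', hV'R, h1⟩ := key (i + 1) j R hR hRq
      exact ⟨V', hV', (hV'R.trans hRV).trans hVU, _, fun x hx => h1 i (Nat.lt_succ_self i) x hx⟩
    · obtain ⟨V, hV, hVU, h1⟩ := hdic U V₀ hU hV₀
      rcases h1 with h1 | h1
      · exact absurd ⟨V, hV, hVU, h1⟩ hc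
      · refine ⟨V, hV, hVU, y₀, fun x hx => hf0 x i ?_⟩
        rintro ⟨j, hj⟩
        exact Set.disjoint_left.1 h1 hx (hEV _ _ hj)
  · intro x i
    by_cases h : ∃ j, x ∈ (e (i + 1) j).1
    · right
      obtain ⟨j', h1, _, h2⟩ := hf1 x i h
      obtain ⟨j0, _, c, h3⟩ := hpar i j'
      refine ⟨(e i j0).2, (e (i + 1) j').1, hEl _ _, hEP _ _, ?_⟩
      have h4 : f x i = c := by
        rw [h2, h3, List.getD_append_right _ _ _ _ (by rw [hEl]), hEl, Nat.sub_self]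
        rfl
      rw [h4, ← h3]
      exact hEΦ _ _
    · exact Or.inl (hf0 x i h)
  · intro F V hV hVV hF
    obtain ⟨q, hq, R, hR, hRV, hRq⟩ := (St F.length).2.pre V hV hVV
    rw [he' F.length] at hq
    obtain ⟨j, rfl⟩ := hq
    obtain ⟨V', hV', hV'R, h1⟩ := key F.length j R hR hRq
    obtain ⟨x, hx⟩ := hne V' hV'
    refine ⟨V', hV', hV'R.trans hRV, ?_⟩
    have h2 : F = (e F.length j).2 := by
      have h3 := hF x (hRV (hV'R hx))
      apply List.ext_getElem (by rw [hEl])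
      intro k hk1 hk2
      have h4 : f x k = (e F.length j).2.getD k y₀ := h1 k hk1 x hx
      have h5 : F[k] = f x k := by
        have : ((List.range F.length).map (f x))[k]'(by simpa using hk1) = F[k] := by
          simp only [h3]
        rw [← this]
        simp
      rw [h5, h4, List.getD_eq_getElem _ _ hk2]
    rw [h2]
    exact hh _ _ _ hV' (hV'R.trans hRq) (hEΦ _ _)

end Pool.Agent.H29.FC.NAM
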