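import Pool.Agent.H9.FC.TC
import Pool.Agent.H9.FC.TB

/-! Slaloms capturing many reals (Boolean form). -/

namespace Pool.Agent.H29.FC.SLA

open Set Pool.Agent.H9.FC

theorem cod_lt (ρ : List ℕ) : cod ρ < 2 ^ ρ.length := by
  induction ρ with
  | nil => simp [cod]
  | cons c ρ ih =>
    have h1 : cod (c :: ρ) = c % 2 + 2 * cod ρ := rfl
    have h2 : c % 2 < 2 := Nat.mod_lt _ (by norm_num)
    rw [h1, List.length_cons, pow_succ]
    omega

variable {p : Par} {Ω : Type} [LinearOrder Ω] [WellFoundedLT Ω] [OrderTop Ω]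

/-- Boolean values of the slalom at the coordinate `β` -/
def tau (p : Par) (β : Ω) (i : ℕ) (A : Finset ℕ) : BB p Ω :=
  RO.hull {V : Cond p Ω | ∀ x ∈ V.1, x β i = A}

theorem mem_tau (β : Ω) (i : ℕ) (A : Finset ℕ) (V : Cond p Ω) :
    V ∈ (tau p β i A).1 ↔ ∀ W : Cond p Ω, W ≤ V → ∃ R : Cond p Ω, R ≤ W ∧ ∀ x ∈ R.1, x β i = A := by
  constructor
  · intro h W hW
    obtain ⟨R, hR, S, hS, hRS⟩ := h W hW
    exact ⟨R, hR, fun x hx => hS x (hRS hx)⟩
  · intro h W hW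
    obtain ⟨R, hR, hx⟩ := h W hW
    exact ⟨R, hR, R, hx, le_rfl⟩

theorem pf_SLA (hBAS : T_BAS) (hAMA : T_AMA) (hDCF : T_DCF) (hCAP : T_CAP) (hSTM : T_STM)
    (hCNV : T_CNV) : T_SLA := by
  intro p Ω _ _ _ hHC I a hI ha
  obtain ⟨_, _, _, hne, _⟩ := hBAS p Ω
  have hne := hne (⊤ : Ω)
  have hcnv : ∀ ξ : I, ∃ β < (⊤ : Ω), ∃ f : Pt Ω → ℕ → ℕ, DepLt β f ∧
      (∀ n, Dec (PP p β) (fun x => f x n)) ∧
      ∀ n c (V : Cond p Ω), (∀ x ∈ V.1, f x n = c) → V ∈ (a ξ n c).1 := by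
    intro ξ
    obtain ⟨β, hβ, f, h1, h2, _, h3⟩ := hCNV p Ω hHC ℕ 0 (a ξ) (ha ξ)
    exact ⟨β, hβ, f, h1, h2, h3⟩
  choose bt hbt f hfd hfD hfa using hcnv
  obtain ⟨β, hβ, hβξ⟩ := hHC I bt hI hbt
  -- decide the value at `β`
  have hstem : ∀ (i : ℕ) (U : Cond p Ω), ∃ V : Cond p Ω, V ≤ U ∧ ∃ A : Finset ℕ,
      (A ⊆ Finset.range (p.a i) ∧ 2 * A.card ≤ p.a i) ∧ ∀ x ∈ V.1, x β i = A := by
    intro i U
    obtain ⟨V, hV, hVU, s, hs, hN, hx⟩ := hSTM p Ω β ⊤ (i + 1) hβ U.1 U.2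
    exact ⟨⟨V, hV⟩, hVU, s.getD i ∅, hs i (by omega), fun x hx' => hx x hx' i (by omega)⟩
  refine ⟨fun i A => tau p β i A, fun i => ⟨?_, ?_⟩, ?_, ?_⟩
  · rw [eq_top_iff, RO.le_def]
    intro V _
    rw [RO.mem_iSup]
    intro W _
    obtain ⟨R, hR, A, _, hx⟩ := hstem i W
    exact ⟨R, hR, A, (mem_tau β i A R).2 (fun W' hW' => ⟨W', le_rfl, fun x hx' => hx x (hW' hx')⟩)⟩
  · intro A A' hAA
    rw [RO.eq_bot_iff']
    intro V hV
    rw [RO.mem_inf] at hV
    obtain ⟨h1, h2⟩ := hV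
    obtain ⟨R, hR, hx⟩ := (mem_tau β i A V).1 h1 V le_rfl
    obtain ⟨R', hR', hx'⟩ := (mem_tau β i A' V).1 h2 R hR
    obtain ⟨x, hxm⟩ := hne R'.1 R'.2
    exact hAA ((hx x (hR' hxm)).symm.trans (hx' x hxm))
  · intro i A hA
    have h1 : ∃ V, V ∈ (tau p β i A).1 := by
      by_contra hcon
      push Not at hcon
      exact hA (RO.eq_bot_iff'.2 hcon)
    obtain ⟨V, hV⟩ := h1
    obtain ⟨R, hR, hx⟩ := (mem_tau β i A V).1 hV V le_rfl
    obtain ⟨R', hR', A', hA', hx'⟩ := hstem i R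
    obtain ⟨x, hxm⟩ := hne R'.1 R'.2
    have h2 : A = A' := (hx x (hR' hxm)).symm.trans (hx' x hxm)
    rw [h2]
    exact hA'
  · intro ξ
    rw [eq_top_iff, RO.le_def]
    intro V0 _
    rw [RO.mem_iSup]
    intro U _
    -- decisions
    have hDβ : ∀ n, Dec (PP p β) (fun x => f ξ x n) := fun n =>
      (hAMA p Ω).2 (bt ξ) β ℕ (fun x => f ξ x n) (hβξ ξ).le
        (fun x x' h => congrFun (hfd ξ x x' h) n) (hfD ξ n)
    have hDt : ∀ n, Dec (PP p (⊤ : Ω)) (fun x => f ξ x n) := fun n =>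
      (hAMA p Ω).2 (bt ξ) ⊤ ℕ (fun x => f ξ x n) le_top
        (fun x x' h => congrFun (hfd ξ x x' h) n) (hfD ξ n)
    obtain ⟨V, hV, hVU, i₀, hcap⟩ := hCAP p Ω β ⊤
      (fun x i => cod ((List.range (p.ell i)).map (fun j => f ξ x (bl p i + j)))) hβ
      (by
        intro x x' h
        funext i
        have h1 : f ξ x = f ξ x' := hfd ξ x x' (fun δ hδ => h δ (hδ.trans (hβξ ξ)))
        show cod ((List.range (p.ell i)).map (fun j => f ξ x (bl p i + j))) =
          cod ((List.range (p.ell i)).map (fun j => f ξ x' (bl p i + j)))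
        rw [h1])
      (by
        intro i U' hU'
        obtain ⟨V, hV, hVU, hc⟩ := hDCF p Ω β ℕ (f ξ) (bl p i + p.ell i) U' hDβ hU'
        by_cases hVe : V.Nonempty
        · obtain ⟨x0, hx0⟩ := hVe
          refine ⟨V, hV, hVU, cod ((List.range (p.ell i)).map (fun j => f ξ x0 (bl p i + j))),
            fun x hx => ?_⟩
          show cod ((List.range (p.ell i)).map (fun j => f ξ x (bl p i + j))) = _
          congr 1
          apply List.map_congr_left
          intro j hj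
          obtain ⟨c, hc'⟩ := hc (bl p i + j) (by
            have := List.mem_range.1 hj
            omega)
          rw [hc' x hx, hc' x0 hx0]
        · exact ⟨V, hV, hVU, 0, fun x hx => absurd ⟨x, hx⟩ hVe⟩)
      (by
        intro x i
        rw [p.a_eq]
        refine lt_of_lt_of_eq (cod_lt _) ?_
        rw [List.length_map, List.length_range])
      U.1 U.2
    refine ⟨⟨V, hV⟩, hVU, i₀, ?_⟩
    unfold cov
    rw [RO.mem_iInf]
    intro i
    rw [RO.mem_iInf]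
    intro hi
    unfold inb
    rw [RO.mem_iSup]
    intro W hW
    obtain ⟨W1, hW1, A, _, hA⟩ := hstem i W
    obtain ⟨W2, hW2, hW21, hc⟩ := hDCF p Ω ⊤ ℕ (f ξ) (bl p i + p.ell i) W1.1 hDt W1.2
    obtain ⟨x0, hx0⟩ := hne W2 hW2
    have hlen : ((List.range (p.ell i)).map (fun j => f ξ x0 (bl p i + j))).length = p.ell i := by
      rw [List.length_map, List.length_range]
    refine ⟨⟨W2, hW2⟩, le_trans (show W2 ≤ W1.1 from hW21) hW1,
      ⟨(A, (List.range (p.ell i)).map (fun j => f ξ x0 (bl p i + j))), hlen, ?_⟩, ?_⟩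
    · have h1 := hcap i hi x0 (hW (hW1 (hW21 hx0)))
      rw [hA x0 (hW21 hx0)] at h1
      exact h1
    · rw [RO.mem_inf]
      refine ⟨(mem_tau β i A _).2 (fun W' hW' => ⟨W', le_rfl, fun x hx' => hA x (hW21 (hW' hx'))⟩),
        ?_⟩
      rw [RO.mem_iInf]
      intro j
      apply hfa
      intro x hx
      have hj : (j : ℕ) < p.ell i := by
        have := j.2
        simpa using this
      obtain ⟨c, hc'⟩ := hc (bl p i + j) (by omega)
      show f ξ x (bl p i + j) =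
        ((List.range (p.ell i)).map (fun j => f ξ x0 (bl p i + j))).getD j 0
      rw [List.getD_eq_getElem _ _ (lt_of_lt_of_eq hj hlen.symm), List.getElem_map, List.getElem_range,
        hc' x hx, hc' x0 hx0]

end Pool.Agent.H29.FC.SLA
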